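import Pool.Agent.W488.IX.Stm
import Pool.Agent.W479.IW.HDiv

/-!
Project IX: second derivatives of functions of the regularised moduli.
-/

set_option autoImplicit false

namespace Pool.Agent.W253.IX.Divg

open Pool.Agent.W488.IW Pool.Agent.W488.IX Pool.Agent.W479.IW.HDiv MeasureTheory Set Filter
  Topology

section

variable {Φ Φx Φy : ℝ → ℝ → ℝ} {ε ϑ c0 : ℝ}

/-- the function -/
noncomputable def ww (Φ : ℝ → ℝ → ℝ) (ε ϑ c0 : ℝ) (F : ℂ × ℂ) : ℝ :=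
  Φ (XX ε F.1) (XX ε F.2) - c0 + ϑ / 2 * (‖F.1‖ ^ 2 + ‖F.2‖ ^ 2)

/-- coefficient of the first form -/
noncomputable def AG (Φx : ℝ → ℝ → ℝ) (ε ϑ : ℝ) (F : ℂ × ℂ) : ℝ :=
  Φx (XX ε F.1) (XX ε F.2) * (XX ε F.1)⁻¹ + ϑ

/-- coefficient of the second form -/
noncomputable def BG (Φy : ℝ → ℝ → ℝ) (ε ϑ : ℝ) (F : ℂ × ℂ) : ℝ :=
  Φy (XX ε F.1) (XX ε F.2) * (XX ε F.2)⁻¹ + ϑ

theorem dXY (hε : 0 < ε) (F : ℂ × ℂ) : HasFDerivAt (fun F : ℂ × ℂ => (XX ε F.1, XX ε F.2))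
    (((XX ε F.1)⁻¹ • L1 F).prod ((XX ε F.2)⁻¹ • L2 F)) F :=
  (dX hε F).prodMk (dY hε F)

theorem comp2 (hε : 0 < ε) (F : ℂ × ℂ) {Ψ : ℝ → ℝ → ℝ} {gx gy : ℝ}
    (h : HasFDerivAt (fun z : ℝ × ℝ => Ψ z.1 z.2) (lin gx gy) (XX ε F.1, XX ε F.2)) :
    HasFDerivAt (fun F : ℂ × ℂ => Ψ (XX ε F.1) (XX ε F.2))
      ((gx * (XX ε F.1)⁻¹) • L1 F + (gy * (XX ε F.2)⁻¹) • L2 F) F := by
  have h2 : HasFDerivAt (fun z : ℝ × ℝ => Ψ z.1 z.2) (lin gx gy)
      ((fun F : ℂ × ℂ => (XX ε F.1, XX ε F.2)) F) := h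
  have h1 := h2.comp F (dXY hε F)
  refine h1.congr_fderiv ?_
  refine ContinuousLinearMap.ext (fun U => ?_)
  simp only [add_apply, smul_apply, smul_eq_mul,
    ContinuousLinearMap.comp_apply, ContinuousLinearMap.prod_apply, lin,
    ContinuousLinearMap.coe_fst', ContinuousLinearMap.coe_snd']
  ring

/-- first derivative -/
theorem d1 (hε : 0 < ε) (F : ℂ × ℂ)
    (h : HasFDerivAt (fun z : ℝ × ℝ => Φ z.1 z.2)
      (lin (Φx (XX ε F.1) (XX ε F.2)) (Φy (XX ε F.1) (XX ε F.2))) (XX ε F.1, XX ε F.2)) :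
    HasFDerivAt (ww Φ ε ϑ c0) (AG Φx ε ϑ F • L1 F + BG Φy ε ϑ F • L2 F) F := by
  have h1 := comp2 hε F h
  have h5 := ((((r1.hasFDerivAt (x := F)).mul (r1.hasFDerivAt (x := F))).add
    ((i1.hasFDerivAt (x := F)).mul (i1.hasFDerivAt (x := F)))).add
    (((r2.hasFDerivAt (x := F)).mul (r2.hasFDerivAt (x := F))).add
    ((i2.hasFDerivAt (x := F)).mul (i2.hasFDerivAt (x := F))))).const_mul (ϑ / 2)
  have h6 := (h1.sub_const c0).add h5
  have e : ww Φ ε ϑ c0 = fun F => (Φ (XX ε F.1) (XX ε F.2) - c0) +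
      ϑ / 2 * ((r1 F * r1 F + i1 F * i1 F) + (r2 F * r2 F + i2 F * i2 F)) := by
    funext G
    rw [ww, Complex.sq_norm, Complex.normSq_apply, Complex.sq_norm, Complex.normSq_apply]
    simp only [r1, i1, r2, i2, ContinuousLinearMap.comp_apply, ContinuousLinearMap.coe_fst',
      ContinuousLinearMap.coe_snd', Complex.reCLM_apply, Complex.imCLM_apply]
  rw [e]
  refine h6.congr_fderiv ?_
  refine ContinuousLinearMap.ext (fun U => ?_)
  have er1 : r1 F = F.1.re := rfl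
  have ei1 : i1 F = F.1.im := rfl
  have er2 : r2 F = F.2.re := rfl
  have ei2 : i2 F = F.2.im := rfl
  have er1' : r1 U = U.1.re := rfl
  have ei1' : i1 U = U.1.im := rfl
  have er2' : r2 U = U.2.re := rfl
  have ei2' : i2 U = U.2.im := rfl
  simp only [add_apply, smul_apply, L1_apply, L2_apply, smul_eq_mul, AG, BG]
  rw [er1, ei1, er2, ei2, er1', ei1', er2', ei2']
  ring

/-- second derivative -/
theorem d2 (hε : 0 < ε) (F : ℂ × ℂ) {xx xy yy : ℝ}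
    (h : ∀ᶠ z in 𝓝 (XX ε F.1, XX ε F.2), HasFDerivAt (fun z : ℝ × ℝ => Φ z.1 z.2)
      (lin (Φx z.1 z.2) (Φy z.1 z.2)) z)
    (hx : HasFDerivAt (fun z : ℝ × ℝ => Φx z.1 z.2) (lin xx xy) (XX ε F.1, XX ε F.2))
    (hy : HasFDerivAt (fun z : ℝ × ℝ => Φy z.1 z.2) (lin xy yy) (XX ε F.1, XX ε F.2)) :
    DifferentiableAt ℝ (fderiv ℝ (ww Φ ε ϑ c0)) F ∧ ∀ U W : ℂ × ℂ,
    fderiv ℝ (fderiv ℝ (ww Φ ε ϑ c0)) F U W =
      AG Φx ε ϑ F * L1 U W + BG Φy ε ϑ F * L2 U W +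
      ((xx - Φx (XX ε F.1) (XX ε F.2) / XX ε F.1) / XX ε F.1 ^ 2) * (L1 F U * L1 F W) +
      (xy / (XX ε F.1 * XX ε F.2)) * (L1 F U * L2 F W + L2 F U * L1 F W) +
      ((yy - Φy (XX ε F.1) (XX ε F.2) / XX ε F.2) / XX ε F.2 ^ 2) * (L2 F U * L2 F W) := by
  have hev : fderiv ℝ (ww Φ ε ϑ c0) =ᶠ[𝓝 F]
      fun F => AG Φx ε ϑ F • L1 F + BG Φy ε ϑ F • L2 F := by
    have h1 := (dXY hε F).continuousAt.eventually h
    filter_upwards [h1] with G hG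
    exact (d1 hε G hG).fderiv
  have hX := dX hε F
  have hY := dY hε F
  have hx0 := (XX_pos hε F.1).ne'
  have hy0 := (XX_pos hε F.2).ne'
  have hIX := (hasDerivAt_inv hx0).comp_hasFDerivAt F hX
  have hIY := (hasDerivAt_inv hy0).comp_hasFDerivAt F hY
  have h1 := comp2 hε F hx
  have h2 := comp2 hε F hy
  have hA : HasFDerivAt (AG Φx ε ϑ) _ F := (h1.mul hIX).add_const ϑ
  have hB : HasFDerivAt (BG Φy ε ϑ) _ F := (h2.mul hIY).add_const ϑ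
  have hL1 := L1.hasFDerivAt (x := F)
  have hL2 := L2.hasFDerivAt (x := F)
  have hfin : HasFDerivAt (fun F => AG Φx ε ϑ F • L1 F + BG Φy ε ϑ F • L2 F) _ F :=
    (hA.smul hL1).add (hB.smul hL2)
  have hfin2 := hfin.congr_of_eventuallyEq hev
  refine ⟨hfin2.differentiableAt, fun U W => ?_⟩
  rw [HasFDerivAt.fderiv hfin2]
  simp only [add_apply, smul_apply, L1_apply, L2_apply, smul_eq_mul,
    Function.comp_apply, ContinuousLinearMap.smulRight_apply]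
  generalize Φx (XX ε F.1) (XX ε F.2) = p at *
  generalize Φy (XX ε F.1) (XX ε F.2) = q at *
  generalize XX ε F.1 = x at *
  generalize XX ε F.2 = y at *
  generalize AG Φx ε ϑ F = A at *
  generalize BG Φy ε ϑ F = B at *
  field_simp
  ring

end

theorem main : S_DIVG := by
  intro Φ Φx Φy ε ϑ c0 a b xx xy yy hε h hx hy
  obtain ⟨h1, h2⟩ := d2 (ϑ := ϑ) (c0 := c0) hε (a, b) h hx hy
  refine ⟨h1, ?_⟩
  intro p q r φ
  have hw : (fun F : ℂ × ℂ => Φ (XX ε F.1) (XX ε F.2) - c0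
      + ϑ / 2 * (‖F.1‖ ^ 2 + ‖F.2‖ ^ 2)) = ww Φ ε ϑ c0 := rfl
  rw [hw, DIV, h2, h2]
  have hx0 := (XX_pos hε a).ne'
  have hy0 := (XX_pos hε b).ne'
  simp only [L1_apply, L2_apply, LamG, AG, BG]
  generalize Φx (XX ε a) (XX ε b) = u
  generalize Φy (XX ε a) (XX ε b) = v
  generalize XX ε a = X at *
  generalize XX ε b = Y at *
  have ha : ((‖a‖ ^ 2 : ℝ) : ℂ) = ((a.re * a.re + a.im * a.im : ℝ) : ℂ) := by
    rw [Complex.sq_norm, Complex.normSq_apply]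
  have hb : ((‖b‖ ^ 2 : ℝ) : ℂ) = ((b.re * b.re + b.im * b.im : ℝ) : ℂ) := by
    rw [Complex.sq_norm, Complex.normSq_apply]
  rw [← Complex.ofReal_pow, ← Complex.ofReal_pow, ha, hb]
  have e11 : (xx - u / X) / X ^ 2 = 2 * ((xx - u / X) / (2 * X ^ 2)) := by
    field_simp
  have e22 : (yy - v / Y) / Y ^ 2 = 2 * ((yy - v / Y) / (2 * Y ^ 2)) := by
    field_simp
  have e12 : xy / (X * Y) = 2 * (xy / (2 * X * Y)) := by
    field_simp
  have eu : u * X⁻¹ = u / X := rfl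
  have ev : v * Y⁻¹ = v / Y := rfl
  rw [e11, e22, e12, eu, ev]
  generalize (xx - u / X) / (2 * X ^ 2) = c11
  generalize (yy - v / Y) / (2 * Y ^ 2) = c22
  generalize xy / (2 * X * Y) = c12
  generalize u / X = u1
  generalize v / Y = v1
  simp [pow_two]
  ring

end Pool.Agent.W253.IX.Divg
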